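import Pool.Agent.H560R2.Mat4
import Pool.Agent.H560R2.Av1
import Pool.Agent.H560R2.Sum5

/-! Average-case lower bound for monotone real programs for bipartite perfect matching. -/

set_option linter.unusedSectionVars false
set_option linter.unusedVariables false

namespace Pool.Agent.W2helper58

open Finset Pool.Agent.H560R2

section

variable {n : ℕ}

/-- Random perfect matchings cannot be told from random sparse covers, by short monotone real
programs. -/
theorem match_avg (w lam : ℕ) (hw : 1 ≤ w) (hn : n < 2 ^ lam)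
    (hbig : 2 ^ 59 * (lam + 1) ^ 8 * w ^ 8 ≤ n) :
    ∃ (Ng : Type) (_ : Fintype Ng) (_ : Nonempty Ng) (sn : Ng → Finset (Fin n × Fin n)),
      (∀ ω, ∀ σ : Equiv.Perm (Fin n), ¬ pgr σ ⊆ sn ω) ∧
      BlockHard (2 ^ w) (1 / (w : ℝ)) (pgr (n := n)) sn := by
  classical
  have hnpos : 0 < n := lt_of_lt_of_le (by positivity) hbig
  have hlam59 : 59 ≤ lam := by
    by_contra h
    have h1 : 2 ^ lam ≤ 2 ^ 59 := Nat.pow_le_pow_right (by norm_num) (by omega)
    have h2 : 2 ^ 59 * 1 ≤ 2 ^ 59 * ((lam + 1) ^ 8 * w ^ 8) :=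
      Nat.mul_le_mul_left _ (Nat.succ_le_of_lt (by positivity))
    have h3 : 2 ^ 59 * ((lam + 1) ^ 8 * w ^ 8) ≤ n := by rw [← mul_assoc]; exact hbig
    omega
  have hlam : 1 ≤ lam := by omega
  obtain ⟨B, hBdef⟩ : ∃ B, B = 8 * lam * w := ⟨_, rfl⟩
  obtain ⟨J, hJdef⟩ : ∃ J, J = lam + 1 := ⟨_, rfl⟩
  obtain ⟨Q, hQdef⟩ : ∃ Q, Q = 8 * (B * J) := ⟨_, rfl⟩
  have hB3 : 3 ≤ B := by rw [hBdef]; nlinarith
  have hJ0 : 0 < J := by omega
  have hQ0 : 0 < Q := by rw [hQdef]; positivity
  have : NeZero Q := ⟨hQ0.ne'⟩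
  obtain ⟨r, hrdef⟩ : ∃ r, r = 64 * Q := ⟨_, rfl⟩
  obtain ⟨R, hRdef⟩ : ∃ R, R = 8 * w ^ 2 * r ^ 2 := ⟨_, rfl⟩
  obtain ⟨K, hKdef⟩ : ∃ K, K = n - w := ⟨_, rfl⟩
  have hw0 : 0 < w := hw
  have hr0 : 0 < r := by rw [hrdef]; positivity
  have hR1 : 1 ≤ R := by rw [hRdef]; exact Nat.succ_le_of_lt (by positivity)
  have hwR : w ≤ R := by
    rw [hRdef]
    calc w ≤ w ^ 2 := Nat.le_self_pow (by norm_num) w
      _ ≤ w ^ 2 * (8 * r ^ 2) := Nat.le_mul_of_pos_right _ (by positivity)
      _ = 8 * w ^ 2 * r ^ 2 := by ring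
  have hRval : 16 * R ^ 2 = 2 ^ 58 * (lam ^ 4 * (lam + 1) ^ 4) * w ^ 8 := by
    rw [hRdef, hrdef, hQdef, hBdef, hJdef]; ring
  have hlam8 : lam ^ 4 * (lam + 1) ^ 4 ≤ (lam + 1) ^ 8 := by
    calc lam ^ 4 * (lam + 1) ^ 4 ≤ (lam + 1) ^ 4 * (lam + 1) ^ 4 :=
          Nat.mul_le_mul_right _ (Nat.pow_le_pow_left (by omega) 4)
      _ = _ := by ring
  have hKR : 16 * R ^ 2 + w ≤ n := by
    rw [hRval]
    have h1 : 2 ^ 58 * (lam ^ 4 * (lam + 1) ^ 4) * w ^ 8 ≤ 2 ^ 58 * (lam + 1) ^ 8 * w ^ 8 :=
      Nat.mul_le_mul_right _ (Nat.mul_le_mul_left _ hlam8)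
    have h2 : w ≤ 2 ^ 58 * (lam + 1) ^ 8 * w ^ 8 := by
      calc w ≤ w ^ 8 := Nat.le_self_pow (by norm_num) w
        _ ≤ (2 ^ 58 * (lam + 1) ^ 8) * w ^ 8 := Nat.le_mul_of_pos_left _ (by positivity)
    have h3 : 2 ^ 59 * (lam + 1) ^ 8 * w ^ 8 = 2 ^ 58 * (lam + 1) ^ 8 * w ^ 8 +
        2 ^ 58 * (lam + 1) ^ 8 * w ^ 8 := by ring
    calc 2 ^ 58 * (lam ^ 4 * (lam + 1) ^ 4) * w ^ 8 + w ≤
        2 ^ 58 * (lam + 1) ^ 8 * w ^ 8 + 2 ^ 58 * (lam + 1) ^ 8 * w ^ 8 := Nat.add_le_add h1 h2
      _ = 2 ^ 59 * (lam + 1) ^ 8 * w ^ 8 := h3.symm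
      _ ≤ n := hbig
  have hK16 : 16 * R ^ 2 ≤ K := by omega
  have hK4 : 4 * R ≤ K := by
    refine le_trans ?_ hK16
    nlinarith
  have hK4R : 4 * R * (4 * R) ≤ K := by
    refine le_trans (le_of_eq ?_) hK16
    ring
  have hwn : w < 2 ^ lam := by omega
  have hJ2 : 2 * w < 2 ^ J := by
    rw [hJdef, pow_succ]; omega
  set Om := ((Q ^ Fintype.card (Fin n ⊕ Fin n)) ^ J) ^ B with hOm
  have hOmpos : 0 < Om := Om_pos B J
  -- the negative inputs
  let Ng := {ω : Fin B → Fin J → (Fin n ⊕ Fin n) → Fin Q // (WB ω).card < n}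
  let sn : Ng → Finset (Fin n × Fin n) := fun ω => touch bends (WB ω.1)
  have hlarge := card_large (V := Fin n ⊕ Fin n) (Q := Q) B J n
      (by rw [Fintype.card_sum, Fintype.card_fin]; ring) hnpos (by positivity) hQdef.ge
  have hNgcard : Fintype.card Ng +
      {ω : Fin B → Fin J → (Fin n ⊕ Fin n) → Fin Q | n ≤ (WB ω).card}.ncard = Om := by
    have h1 : Fintype.card Ng =
        {ω : Fin B → Fin J → (Fin n ⊕ Fin n) → Fin Q | (WB ω).card < n}.ncard := by
      rw [← Nat.card_coe_set_eq, Nat.card_eq_fintype_card]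
      rfl
    have h2 : {ω : Fin B → Fin J → (Fin n ⊕ Fin n) → Fin Q | n ≤ (WB ω).card} =
        {ω : Fin B → Fin J → (Fin n ⊕ Fin n) → Fin Q | (WB ω).card < n}ᶜ := by
      ext ω; simp
    rw [h1, h2, Set.ncard_add_ncard_compl, ← Set.ncard_univ, card_Om]
  have hNg34 : 3 * Om ≤ 4 * Fintype.card Ng := by omega
  have hNgpos : 0 < Fintype.card Ng := by omega
  have hNgne : Nonempty Ng := Fintype.card_pos_iff.mp hNgpos
  refine ⟨Ng, inferInstance, hNgne, sn, ?_, ?_⟩
  · -- no perfect matching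
    intro ω σ hsub
    have h1 : n ≤ (WB ω.1).card := by
      -- each edge of the matching meets `W` in its own vertex
      have h2 : ∀ i : Fin n, Sum.inl i ∈ WB ω.1 ∨ Sum.inr (σ i) ∈ WB ω.1 := by
        intro i
        have h3 : ((i, σ i) : Fin n × Fin n) ∈ touch bends (WB ω.1) :=
          hsub (mem_pgr.mpr rfl)
        rw [mem_touch, Finset.not_disjoint_iff] at h3
        obtain ⟨v, hv1, hv2⟩ := h3
        simp only [bends, Finset.mem_insert, Finset.mem_singleton] at hv1
        rcases hv1 with rfl | rfl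
        · exact Or.inl hv2
        · exact Or.inr hv2
      let φ : Fin n → Fin n ⊕ Fin n := fun i =>
        if Sum.inl i ∈ WB ω.1 then Sum.inl i else Sum.inr (σ i)
      have hφ : ∀ i, φ i ∈ WB ω.1 := by
        intro i
        simp only [φ]
        split_ifs with h
        · exact h
        · exact (h2 i).resolve_left h
      have hφi : Function.Injective φ := by
        intro i j hij
        simp only [φ] at hij
        split_ifs at hij with h3 h4 h4
        · exact Sum.inl.inj hij
        · exact σ.injective (Sum.inr.inj hij)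
      calc n = (univ : Finset (Fin n)).card := by simp
        _ ≤ (WB ω.1).card := Finset.card_le_card_of_injOn φ (fun i _ => hφ i)
            (fun i _ j _ h => hφi h)
    exact absurd ω.2 (by omega)
  · -- the advantage
    intro B0 hB0 L hL hlen g hg τ
    have hleaf : ∀ b ∈ B0, ∃ T : Finset (Fin n × Fin n), T.card ≤ 1 ∧ LeafOnR T b := by
      intro b hb
      rcases hB0 b hb with ⟨c, rfl⟩ | ⟨v, c, d, hcd, h1, h2⟩
      · exact ⟨∅, by simp, fun x x' _ => le_rfl⟩
      · refine ⟨{v}, by simp, fun x x' h => ?_⟩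
        by_cases hv : v ∈ x
        · rw [h1 x hv, h1 x' (h v (by simp) hv)]
        · rw [h2 x hv]
          by_cases hv' : v ∈ x'
          · rw [h1 x' hv']; exact hcd
          · rw [h2 x' hv']
    obtain ⟨Ep, En, hEp, hEn, H⟩ := approxM (ends := bends (n := n)) (Q := Q) bends_card bends_inj
      B J w r R K hB3 hJ0 hw hQdef.ge hrdef.ge hRdef.ge hR1 hJ2 B0 hleaf pgr pgr_mt
      (fun Y hY => by
        rw [hKdef]
        exact card_perm (n := n) w (w + 1) Y hY le_rfl) hL
    obtain ⟨D, hD⟩ := H g hg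
    set Pc := Fintype.card (Equiv.Perm (Fin n)) with hPc
    have hPpos : 0 < Pc := Fintype.card_pos
    have hPR : (0 : ℝ) < Pc := by exact_mod_cast hPpos
    have hNR : (0 : ℝ) < Fintype.card Ng := by exact_mod_cast hNgpos
    have hwR' : (0 : ℝ) < w := by exact_mod_cast hw0
    by_cases hempty : ∅ ∈ D τ
    · -- accepted by almost all negative inputs
      set Tc := (Tm (bends (n := n)) w).card with hTc
      have hT1 : Tc ≤ 2 ^ (2 * lam * w) := by
        have h4 : Tc ≤ ((univ : Finset (Finset (Fin n × Fin n))).filter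
            (fun Y => Y.card ≤ w)).card := by
          apply Finset.card_le_card
          intro S hS
          rw [Finset.mem_filter]
          exact ⟨mem_univ _, (mem_Tm.mp hS).1⟩
        refine h4.trans ((card_small_sets w).trans ?_)
        rw [pow_mul]
        apply Nat.pow_le_pow_left
        rw [Fintype.card_prod, Fintype.card_fin]
        have h5 : n + 1 ≤ 2 ^ lam := hn
        calc n * n + 1 ≤ (n + 1) * (n + 1) := by nlinarith
          _ ≤ 2 ^ lam * 2 ^ lam := Nat.mul_le_mul h5 h5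
          _ = 2 ^ (2 * lam) := by rw [← pow_add]; congr 1; ring
      have hT2 : Tc + 1 ≤ 2 ^ (2 * lam * w + 1) := by
        have : 1 ≤ 2 ^ (2 * lam * w) := Nat.one_le_two_pow
        rw [pow_succ]; omega
      have h4 : En.ncard * 2 ^ B ≤ 2 ^ w * (2 ^ (2 * lam * w + 1) * (2 ^ (2 * lam * w) * Om)) :=
        hEn.trans (Nat.mul_le_mul hlen (Nat.mul_le_mul hT2 (Nat.mul_le_mul_right _ hT1)))
      have h5 : 2 ^ w * (2 ^ (2 * lam * w + 1) * (2 ^ (2 * lam * w) * Om)) * (4 * 2 ^ w) ≤
          2 ^ B * Om := by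
        calc 2 ^ w * (2 ^ (2 * lam * w + 1) * (2 ^ (2 * lam * w) * Om)) * (4 * 2 ^ w)
            = 2 ^ (2 + w + w + (2 * lam * w + 1) + 2 * lam * w) * Om := by
              rw [pow_add, pow_add, pow_add, pow_add]; ring
          _ ≤ 2 ^ B * Om := by
              apply Nat.mul_le_mul_right
              apply Nat.pow_le_pow_right (by norm_num)
              rw [hBdef]
              nlinarith
      have h6 : 2 ^ B * (En.ncard * (4 * 2 ^ w)) ≤ 2 ^ B * Om := by
        calc 2 ^ B * (En.ncard * (4 * 2 ^ w)) = En.ncard * 2 ^ B * (4 * 2 ^ w) := by ring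
          _ ≤ _ := Nat.mul_le_mul_right _ h4
          _ ≤ _ := h5
      have h7 : En.ncard * (4 * 2 ^ w) ≤ Om := Nat.le_of_mul_le_mul_left h6 (by positivity)
      have h8 : w ≤ 2 ^ w := Nat.lt_two_pow_self.le
      have h9 : En.ncard * w * 4 ≤ Om :=
        le_trans (by
          calc En.ncard * w * 4 ≤ En.ncard * 2 ^ w * 4 :=
                Nat.mul_le_mul_right _ (Nat.mul_le_mul_left _ h8)
            _ = _ := by ring) h7
      have h10 : En.ncard * w ≤ Fintype.card Ng := by omega
      -- the accepted negative inputs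
      have h11 : (Fintype.card Ng) ≤
          ((univ.filter (fun ω : Ng => τ ≤ g (sn ω : Set (Fin n × Fin n)))).card) + En.ncard := by
        have hsplit := Finset.card_filter_add_card_filter_not (s := (univ : Finset Ng))
          (fun ω : Ng => τ ≤ g (sn ω : Set (Fin n × Fin n)))
        rw [Finset.card_univ] at hsplit
        have h12 : (univ.filter (fun ω : Ng => ¬ τ ≤ g (sn ω : Set (Fin n × Fin n)))).card ≤
            En.ncard := by
          rw [← Set.ncard_coe_finset]
          apply Set.ncard_le_ncard_of_injOn (fun ω : Ng => ω.1) ?_ ?_ (Set.toFinite _)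
          · intro ω hω
            rw [Finset.mem_coe, Finset.mem_filter] at hω
            by_contra hcon
            exact hω.2 (hD.neg ω.1 hcon τ ⟨∅, hempty, Finset.empty_subset _⟩)
          · intro ω _ ω' _ h
            exact Subtype.ext h
        omega
      have h13 : ((univ.filter (fun p : Equiv.Perm (Fin n) =>
          τ ≤ g (pgr p : Set (Fin n × Fin n)))).card : ℝ) / Pc ≤ 1 := by
        rw [div_le_one hPR]
        have : (univ.filter (fun p : Equiv.Perm (Fin n) =>
          τ ≤ g (pgr p : Set (Fin n × Fin n)))).card ≤ Pc := by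
          rw [hPc, ← Finset.card_univ]
          exact Finset.card_le_card (Finset.filter_subset _ _)
        exact_mod_cast this
      refine h13.trans ?_
      have h14 : (Fintype.card Ng : ℝ) ≤
          ((univ.filter (fun ω : Ng => τ ≤ g (sn ω : Set (Fin n × Fin n)))).card : ℝ) +
            En.ncard := by exact_mod_cast h11
      have h15 : (En.ncard : ℝ) * w ≤ Fintype.card Ng := by exact_mod_cast h10
      have h16 : (En.ncard : ℝ) ≤ 1 / w * Fintype.card Ng := by
        rw [div_mul_eq_mul_div, one_mul, le_div_iff₀ hwR']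
        exact h15
      have h17 : (1 : ℝ) * Fintype.card Ng ≤
          (((univ.filter (fun ω : Ng => τ ≤ g (sn ω : Set (Fin n × Fin n)))).card : ℝ) /
            Fintype.card Ng + 1 / w) * Fintype.card Ng := by
        rw [add_mul, div_mul_cancel₀ _ hNR.ne', one_mul]
        linarith
      exact le_of_mul_le_mul_right h17 hNR
    · -- accepted by few positive inputs
      let gg : Finset (Fin n × Fin n) → Prop := fun x => sat (D τ) x
      have hmem : ∀ l, ∀ S ∈ Mint gg l, S ∈ D τ ∧ S ∈ minc D l := by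
        intro l S hS
        obtain ⟨h1, ⟨S', hS', hsub⟩, h3⟩ := (mem_Mint gg l S).mp hS
        have hSS : S' = S := by
          by_contra hne
          exact h3 S' (Finset.ssubset_iff_subset_ne.mpr ⟨hsub, hne⟩) ⟨S', hS', subset_rfl⟩
        rw [hSS] at hS'
        exact ⟨hS', mem_minc.mpr ⟨h1, τ, hS', fun S'' hS'' hlt =>
          h3 S'' hlt ⟨S'', hS'', subset_rfl⟩⟩⟩
      have hthin : ∀ l, l ≤ w → (Mint gg l).card ≤ R ^ l := by
        intro l hl
        refine (Finset.card_le_card (fun S hS => (hmem l S hS).2)).trans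
          (minc_thin bends_card bends_inj B J w r R l hrdef.ge ?_ (by omega) hl D hD.closed
            hD.anti)
        rw [hRdef]
        exact Nat.mul_le_mul_right _ (Nat.mul_le_mul_left _ (Nat.pow_le_pow_left hl 2))
      have hcount := count_pos' (pgr (n := n)) R w (4 * R) (by omega)
        (fun Y hY1 hY => by
          have h1 : (4 * R) ^ Y.card * (4 * R) ≤ K ^ Y.card := by
            obtain ⟨m, hm⟩ : ∃ m, Y.card = m + 1 := ⟨Y.card - 1, by omega⟩
            rw [hm, pow_succ, pow_succ, mul_assoc]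
            exact Nat.mul_le_mul (Nat.pow_le_pow_left hK4 _) hK4R
          calc {p : Equiv.Perm (Fin n) | Y ⊆ pgr p}.ncard * (4 * R) ^ Y.card * (4 * R)
              = {p : Equiv.Perm (Fin n) | Y ⊆ pgr p}.ncard * ((4 * R) ^ Y.card * (4 * R)) := by
                ring
            _ ≤ {p : Equiv.Perm (Fin n) | Y ⊆ pgr p}.ncard * K ^ Y.card :=
                Nat.mul_le_mul_left _ h1
            _ ≤ _ := by
                rw [hKdef]
                exact card_perm w Y.card Y rfl (by omega)) gg hthin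
        {σ | sat (D τ) (pgr σ)} (by
          intro σ hσ
          obtain ⟨Y, hY1, hY2⟩ := exists_minterm gg (pgr σ) hσ
          have h3 := (hmem _ Y hY2).1
          refine ⟨Y, hY1, hY2, ?_, (mem_Tm.mp ((hD.closed τ).1 h3)).1⟩
          rcases Nat.eq_zero_or_pos Y.card with h4 | h4
          · exfalso
            rw [Finset.card_eq_zero] at h4
            rw [h4] at h3
            exact hempty h3
          · exact h4)
      have hsub : ((univ.filter (fun p : Equiv.Perm (Fin n) =>
          τ ≤ g (pgr p : Set (Fin n × Fin n))) : Finset _) : Set (Equiv.Perm (Fin n))) ⊆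
          Ep ∪ {σ | sat (D τ) (pgr σ)} := by
        intro σ hσ
        rw [Finset.mem_coe, Finset.mem_filter] at hσ
        by_cases h : σ ∈ Ep
        · exact Or.inl h
        · right
          exact hD.pos σ h τ hσ.2
      have h1 := (Set.ncard_le_ncard hsub (Set.toFinite _)).trans (Set.ncard_union_le _ _)
      rw [Set.ncard_coe_finset] at h1
      -- the error is small
      have hw1 : (w + 1) ^ 2 ≤ 4 ^ w := by
        have h5 : w + 1 ≤ 2 ^ w := Nat.lt_two_pow_self
        calc (w + 1) ^ 2 ≤ (2 ^ w) ^ 2 := Nat.pow_le_pow_left h5 2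
          _ = 4 ^ w := by rw [← pow_mul, mul_comm, pow_mul]; norm_num
      have h4 : Ep.ncard * K ^ (w + 1) ≤ 2 ^ w * ((4 ^ w * (R ^ 2) ^ w) * Pc) := by
        refine hEp.trans (Nat.mul_le_mul hlen (Nat.mul_le_mul_right _ ?_))
        calc ((w + 1) * R ^ w) ^ 2 = (w + 1) ^ 2 * (R ^ 2) ^ w := by
              rw [mul_pow, ← pow_mul, ← pow_mul, mul_comm w 2]
          _ ≤ _ := Nat.mul_le_mul_right _ hw1
      have h5 : 2 ^ w * ((4 ^ w * (R ^ 2) ^ w) * Pc) ≤ K ^ w * Pc := by
        calc 2 ^ w * ((4 ^ w * (R ^ 2) ^ w) * Pc)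
            = ((2 * 4 * R ^ 2) ^ w) * Pc := by
              rw [mul_pow, mul_pow]; ring
          _ ≤ (16 * R ^ 2) ^ w * Pc :=
              Nat.mul_le_mul_right _ (Nat.pow_le_pow_left (by omega) w)
          _ ≤ _ := Nat.mul_le_mul_right _ (Nat.pow_le_pow_left hK16 w)
      have hKpos : 0 < K := by omega
      have hKw : 0 < K ^ w := by positivity
      have h6 : Ep.ncard * K ≤ Pc := by
        have h7 : K ^ w * (Ep.ncard * K) ≤ K ^ w * Pc := by
          calc K ^ w * (Ep.ncard * K) = Ep.ncard * K ^ (w + 1) := by rw [pow_succ]; ring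
            _ ≤ _ := h4
            _ ≤ _ := h5
        exact Nat.le_of_mul_le_mul_left h7 hKw
      have hK2w : 2 * w ≤ K := by
        refine le_trans ?_ hK4
        omega
      have h8 : Ep.ncard * (2 * w) ≤ Pc := (Nat.mul_le_mul_left _ hK2w).trans h6
      have h9 : (({σ | sat (D τ) (pgr σ)} : Set (Equiv.Perm (Fin n))).ncard : ℝ) * (2 * w) ≤
          Pc := by
        have h10 : (({σ | sat (D τ) (pgr σ)} : Set (Equiv.Perm (Fin n))).ncard : ℚ) *
            ((4 * R : ℕ) : ℚ) ≤ Pc * (1 / 3) := hcount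
        have h11 : (({σ | sat (D τ) (pgr σ)} : Set (Equiv.Perm (Fin n))).ncard) * (2 * w) ≤
            Pc := by
          have h12 : (({σ | sat (D τ) (pgr σ)} : Set (Equiv.Perm (Fin n))).ncard : ℚ) *
              (2 * w) ≤ Pc := by
            have h13 : (2 * w : ℚ) ≤ ((4 * R : ℕ) : ℚ) := by
              have : 2 * w ≤ 4 * R := by omega
              exact_mod_cast this
            have h14 : (0 : ℚ) ≤ (({σ | sat (D τ) (pgr σ)} :
                Set (Equiv.Perm (Fin n))).ncard : ℚ) := Nat.cast_nonneg _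
            have h15 : (0 : ℚ) ≤ Pc := Nat.cast_nonneg _
            calc _ ≤ (({σ | sat (D τ) (pgr σ)} : Set (Equiv.Perm (Fin n))).ncard : ℚ) *
                  ((4 * R : ℕ) : ℚ) := mul_le_mul_of_nonneg_left h13 h14
              _ ≤ _ := h10
              _ ≤ _ := by linarith
          exact_mod_cast h12
        exact_mod_cast h11
      have h16 : (Ep.ncard : ℝ) * (2 * w) ≤ Pc := by exact_mod_cast h8
      have h17 : ((univ.filter (fun p : Equiv.Perm (Fin n) =>
          τ ≤ g (pgr p : Set (Fin n × Fin n)))).card : ℝ) ≤ Ep.ncard +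
          (({σ | sat (D τ) (pgr σ)} : Set (Equiv.Perm (Fin n))).ncard : ℝ) := by
        exact_mod_cast h1
      have h18 : ((univ.filter (fun p : Equiv.Perm (Fin n) =>
          τ ≤ g (pgr p : Set (Fin n × Fin n)))).card : ℝ) / Pc ≤ 1 / w := by
        rw [div_le_div_iff₀ hPR hwR']
        nlinarith
      have h19 : (0 : ℝ) ≤ ((univ.filter (fun ω : Ng =>
          τ ≤ g (sn ω : Set (Fin n × Fin n)))).card : ℝ) / Fintype.card Ng := by positivity
      linarith

end

end Pool.Agent.W2helper58
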