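import Pool.Agent.W2helper58.MatAvg

/-! Many small bipartite graphs in one input, and randomised circuits. -/

set_option linter.unusedSectionVars false
set_option linter.unusedVariables false

namespace Pool.Agent.W2helper58

open Finset Pool.Agent.H560R2

/-- The `n` input bits are cut into `⌊n / k ^ 2⌋` blocks of `k ^ 2` bits (the rest is not used); each
block is the adjacency matrix of a bipartite graph with `k + k` vertices. Some block has a perfect
matching. -/
def SomeMatching (n k : ℕ) (x : Fin n → Bool) : Prop :=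
  ∃ J : ℕ, ∃ h : (J + 1) * k ^ 2 ≤ n, ∃ σ : Equiv.Perm (Fin k), ∀ u : Fin k,
    ∀ p : Fin n, p.val = J * k ^ 2 + u.val * k + (σ u).val → x p = true

section

variable {n k : ℕ}

lemma pos_lt (hk : 0 < k) (J : Fin (n / k ^ 2)) (u v : Fin k) :
    J.val * k ^ 2 + u.val * k + v.val < n := by
  have h1 : (J.val + 1) * k ^ 2 ≤ n := by
    calc (J.val + 1) * k ^ 2 ≤ (n / k ^ 2) * k ^ 2 := Nat.mul_le_mul_right _ J.isLt
      _ ≤ n := Nat.div_mul_le_self n _
  have h2 : u.val * k + v.val < k ^ 2 := by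
    have hu := u.isLt
    have hv := v.isLt
    calc u.val * k + v.val < u.val * k + k := by omega
      _ = (u.val + 1) * k := by ring
      _ ≤ k * k := Nat.mul_le_mul_right _ hu
      _ = k ^ 2 := by ring
  calc J.val * k ^ 2 + u.val * k + v.val < J.val * k ^ 2 + k ^ 2 := by omega
    _ = (J.val + 1) * k ^ 2 := by ring
    _ ≤ n := h1

/-- block, row and column of an input bit -/
def locM (n k : ℕ) (hk : 0 < k) (p : Fin n) : Option (Fin (n / k ^ 2) × (Fin k × Fin k)) :=
  if h : p.val / k ^ 2 < n / k ^ 2 then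
    some (⟨p.val / k ^ 2, h⟩, (⟨p.val % k ^ 2 / k, by
      have : p.val % k ^ 2 < k * k := by
        have := Nat.mod_lt p.val (show 0 < k ^ 2 by positivity)
        calc _ < k ^ 2 := this
          _ = k * k := by ring
      exact Nat.div_lt_of_lt_mul this⟩, ⟨p.val % k, Nat.mod_lt _ hk⟩))
  else none

lemma locM_pos (hk : 0 < k) (J : Fin (n / k ^ 2)) (u v : Fin k) (p : Fin n)
    (hp : p.val = J.val * k ^ 2 + u.val * k + v.val) : locM n k hk p = some (J, (u, v)) := by
  have h2 : u.val * k + v.val < k ^ 2 := by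
    have hu := u.isLt
    have hv := v.isLt
    calc u.val * k + v.val < u.val * k + k := by omega
      _ = (u.val + 1) * k := by ring
      _ ≤ k * k := Nat.mul_le_mul_right _ hu
      _ = k ^ 2 := by ring
  have hk2 : 0 < k ^ 2 := by positivity
  have e0 : p.val = (u.val * k + v.val) + k ^ 2 * J.val := by rw [hp]; ring
  have e1 : p.val / k ^ 2 = J.val := by
    rw [e0, Nat.add_mul_div_left _ _ hk2, Nat.div_eq_of_lt h2, zero_add]
  have e2 : p.val % k ^ 2 = u.val * k + v.val := by
    rw [e0, Nat.add_mul_mod_self_left, Nat.mod_eq_of_lt h2]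
  have e3 : (u.val * k + v.val) / k = u.val := by
    rw [add_comm, mul_comm, Nat.add_mul_div_left _ _ hk, Nat.div_eq_of_lt v.isLt, zero_add]
  have e4 : p.val % k = v.val := by
    have : p.val = v.val + k * (u.val + k * J.val) := by rw [hp]; ring
    rw [this, Nat.add_mul_mod_self_left, Nat.mod_eq_of_lt v.isLt]
  unfold locM
  rw [dif_pos (by rw [e1]; exact J.isLt)]
  congr 1
  refine Prod.ext (Fin.ext e1) (Prod.ext (Fin.ext ?_) (Fin.ext e4))
  show p.val % k ^ 2 / k = u.val
  rw [e2, e3]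

lemma someMatching_Es (hk : 0 < k) (y : Fin (n / k ^ 2) → Set (Fin k × Fin k)) :
    SomeMatching n k (Es (locM n k hk) y) ↔
      ∃ J, ∃ σ : Equiv.Perm (Fin k), ∀ u, (u, σ u) ∈ y J := by
  have hk2 : 0 < k ^ 2 := by positivity
  constructor
  · rintro ⟨J, hJ, σ, h⟩
    have hJ' : J < n / k ^ 2 := by
      rw [Nat.lt_iff_add_one_le, Nat.le_div_iff_mul_le hk2]
      exact hJ
    refine ⟨⟨J, hJ'⟩, σ, fun u => ?_⟩
    have h1 := h u ⟨_, pos_lt hk ⟨J, hJ'⟩ u (σ u)⟩ rfl
    unfold Es at h1
    rw [locM_pos hk ⟨J, hJ'⟩ u (σ u) _ rfl] at h1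
    simpa using h1
  · rintro ⟨J, σ, h⟩
    refine ⟨J.val, ?_, σ, fun u p hp => ?_⟩
    · calc (J.val + 1) * k ^ 2 ≤ (n / k ^ 2) * k ^ 2 := Nat.mul_le_mul_right _ J.isLt
        _ ≤ n := Nat.div_mul_le_self n _
    · unfold Es
      rw [locM_pos hk J u (σ u) p hp]
      simpa using h u

end

end Pool.Agent.W2helper58
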