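import Pool.Agent.W2helper58.MatFun

/-! The hard distributions. -/

set_option linter.unusedSectionVars false
set_option linter.unusedVariables false

namespace Pool.Agent.W2helper58

open Finset Pool.Agent.H560R2

open Classical in
theorem matching_hard (n k w lam : ℕ) (hw : 1 ≤ w) (hn : k < 2 ^ lam)
    (hbig : 2 ^ 59 * (lam + 1) ^ 8 * w ^ 8 ≤ k) (hM : 0 < n / k ^ 2) :
    ∃ (Λ : Type) (_ : Fintype Λ) (_ : Nonempty Λ) (yes no : Λ → (Fin n → Bool)),
      (∀ l, SomeMatching n k (yes l)) ∧ (∀ l, ¬ SomeMatching n k (no l)) ∧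
      ∀ (s : ℕ) (T : Finset (Fin s)) (ar : Fin s → ℕ) (a : ∀ i, Fin (ar i) → Fin n ⊕ Fin s)
        (op : ∀ i, (Fin (ar i) → ℝ) → ℝ) (θ : ∀ i, Fin (ar i) → ℝ)
        (val : (Fin n → Bool) → Fin s → ℝ) (o : Fin s) (τ : ℝ)
        (_ : ∀ i j m, a i j = Sum.inr m → m < i)
        (_ : ∀ i ∉ T, ar i ≤ 2 ∧ Monotone (op i))
        (_ : ∀ i ∈ T, ∀ z z' : Fin (ar i) → ℝ, (∀ j, θ i j ≤ z j ↔ θ i j ≤ z' j) →
          op i z = op i z')
        (_ : ∀ x i, val x i = op i (fun j => Sum.elim (bit x) (val x) (a i j)))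
        (_ : s + ∑ i ∈ T, ar i ≤ 2 ^ w),
        ((univ.filter (fun l : Λ => τ ≤ val (yes l) o)).card : ℝ) / Fintype.card Λ ≤
          ((univ.filter (fun l : Λ => τ ≤ val (no l) o)).card : ℝ) / Fintype.card Λ +
            ((∏ i ∈ T, (ar i + 1) : ℕ) : ℝ) / ((n / k ^ 2 : ℕ) : ℝ) + 1 / w := by
  have hk : 0 < k := lt_of_lt_of_le (by positivity) hbig
  obtain ⟨Ng, hNg, hNgne, sn, hsn, hA⟩ := match_avg (n := k) w lam hw hn hbig
  have hMne : Nonempty (Fin (n / k ^ 2)) := ⟨⟨0, hM⟩⟩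
  refine ⟨Fin (n / k ^ 2) × (Fin (n / k ^ 2) → Ng) × Equiv.Perm (Fin k), inferInstance,
    inferInstance, yesD (locM n k hk) pgr sn, noD (locM n k hk) sn, ?_, ?_, ?_⟩
  · intro l
    unfold yesD
    rw [someMatching_Es]
    refine ⟨l.1, l.2.2, fun u => ?_⟩
    rw [Function.update_self]
    exact mem_pgr.mpr rfl
  · intro l
    unfold noD
    rw [someMatching_Es]
    rintro ⟨J, σ, h⟩
    by_cases hJ : J.val < l.1 + 1
    · apply hsn (l.2.1 J) σ
      intro e he
      have h1 := h e.1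
      simp only [stS, hJ, if_true] at h1
      rw [mem_pgr] at he
      have h2 : (e.1, σ e.1) = e := Prod.ext rfl he
      rw [h2] at h1
      exact h1
    · have h1 := h ⟨0, hk⟩
      simp only [stS, hJ, if_false] at h1
      exact h1
  · intro s T ar a op θ val o τ htop hmon hT hval hS
    have hh := avg_chain (T := T) (w := ar) (a := a) (op := op) (θ := θ) (val := val) hA hM
      (locM n k hk) htop hmon hT hval hS o τ
    convert hh using 2

end Pool.Agent.W2helper58
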