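import Mathlib

/-! Numerical estimates. -/

namespace Pool.Agent.W2helper58

lemma pow16_le (l : ℕ) (hl : 512 ≤ l) : 2 ^ 86 * l ^ 16 ≤ 2 ^ l := by
  induction l, hl using Nat.le_induction with
  | base =>
    calc 2 ^ 86 * 512 ^ 16 = 2 ^ 86 * (2 ^ 9) ^ 16 := by norm_num
      _ = 2 ^ (86 + 144) := by rw [← pow_mul, pow_add]
      _ ≤ 2 ^ 512 := Nat.pow_le_pow_right (by norm_num) (by norm_num)
  | succ l hl ih =>
    have h1 : (l + 1) * 32 ≤ 33 * l := by omega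
    have h2 : ((l + 1) * 32) ^ 16 ≤ (33 * l) ^ 16 := Nat.pow_le_pow_left h1 16
    rw [mul_pow, mul_pow] at h2
    have h3 : (33 : ℕ) ^ 16 ≤ 2 * 32 ^ 16 := by norm_num
    have h4 : (l + 1) ^ 16 ≤ 2 * l ^ 16 := by
      have h5 : (l + 1) ^ 16 * 32 ^ 16 ≤ (2 * l ^ 16) * 32 ^ 16 := by
        calc _ ≤ _ := h2
          _ ≤ (2 * 32 ^ 16) * l ^ 16 := Nat.mul_le_mul_right _ h3
          _ = _ := by ring
      exact Nat.le_of_mul_le_mul_right h5 (by norm_num)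
    calc 2 ^ 86 * (l + 1) ^ 16 ≤ 2 ^ 86 * (2 * l ^ 16) := Nat.mul_le_mul_left _ h4
      _ = 2 * (2 ^ 86 * l ^ 16) := by ring
      _ ≤ 2 * 2 ^ l := Nat.mul_le_mul_left _ ih
      _ = 2 ^ (l + 1) := by rw [pow_succ]; ring

/-- The parameters. -/
lemma params (L : ℕ) (hL : 2 ^ 512 ≤ L) :
    1 ≤ L * Nat.log 2 L ∧ L ^ 9 < 2 ^ (Nat.log 2 (L ^ 9) + 1) ∧
    2 ^ 59 * (Nat.log 2 (L ^ 9) + 1 + 1) ^ 8 * (L * Nat.log 2 L) ^ 8 ≤ L ^ 9 := by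
  obtain ⟨l, hl⟩ : ∃ l, l = Nat.log 2 L := ⟨_, rfl⟩
  rw [← hl]
  have hL0 : 0 < L := lt_of_lt_of_le (by positivity) hL
  have hl512 : 512 ≤ l := by
    rw [hl]
    exact Nat.le_log_of_pow_le (by norm_num) hL
  have h1 : 2 ^ l ≤ L := by rw [hl]; exact Nat.pow_log_le_self 2 hL0.ne'
  have h2 : L < 2 ^ (l + 1) := by rw [hl]; exact Nat.lt_pow_succ_log_self (by norm_num) L
  have h3 : L ^ 9 < 2 ^ (9 * (l + 1)) := by
    calc L ^ 9 < (2 ^ (l + 1)) ^ 9 := Nat.pow_lt_pow_left h2 (by norm_num)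
      _ = _ := by rw [← pow_mul]; congr 1; ring
  have h4 : Nat.log 2 (L ^ 9) < 9 * (l + 1) := Nat.log_lt_of_lt_pow (by positivity) h3
  refine ⟨Nat.mul_pos hL0 (by omega), Nat.lt_pow_succ_log_self (by norm_num) _, ?_⟩
  have h5 : Nat.log 2 (L ^ 9) + 1 + 1 ≤ 10 * l := by omega
  have h6 : 2 ^ 59 * (Nat.log 2 (L ^ 9) + 1 + 1) ^ 8 * l ^ 8 ≤ 2 ^ l := by
    calc _ ≤ 2 ^ 59 * (10 * l) ^ 8 * l ^ 8 :=
          Nat.mul_le_mul_right _ (Nat.mul_le_mul_left _ (Nat.pow_le_pow_left h5 8))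
      _ = (2 ^ 59 * 10 ^ 8) * l ^ 16 := by ring
      _ ≤ 2 ^ 86 * l ^ 16 := Nat.mul_le_mul_right _ (by norm_num)
      _ ≤ _ := pow16_le l hl512
  calc _ = (2 ^ 59 * (Nat.log 2 (L ^ 9) + 1 + 1) ^ 8 * l ^ 8) * L ^ 8 := by ring
    _ ≤ 2 ^ l * L ^ 8 := Nat.mul_le_mul_right _ h6
    _ ≤ L * L ^ 8 := Nat.mul_le_mul_right _ h1
    _ = L ^ 9 := by ring

lemma pow18_le (L : ℕ) (hL : 512 ≤ L) : 2 * L ^ 18 ≤ 2 ^ L := by
  induction L, hL using Nat.le_induction with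
  | base =>
    calc 2 * 512 ^ 18 = 2 ^ 1 * (2 ^ 9) ^ 18 := by norm_num
      _ = 2 ^ (1 + 162) := by rw [← pow_mul, pow_add]
      _ ≤ 2 ^ 512 := Nat.pow_le_pow_right (by norm_num) (by norm_num)
  | succ l hl ih =>
    have h1 : (l + 1) * 32 ≤ 33 * l := by omega
    have h2 : ((l + 1) * 32) ^ 18 ≤ (33 * l) ^ 18 := Nat.pow_le_pow_left h1 18
    rw [mul_pow, mul_pow] at h2
    have h3 : (33 : ℕ) ^ 18 ≤ 2 * 32 ^ 18 := by norm_num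
    have h4 : (l + 1) ^ 18 ≤ 2 * l ^ 18 := by
      have h5 : (l + 1) ^ 18 * 32 ^ 18 ≤ (2 * l ^ 18) * 32 ^ 18 := by
        calc _ ≤ _ := h2
          _ ≤ (2 * 32 ^ 18) * l ^ 18 := Nat.mul_le_mul_right _ h3
          _ = _ := by ring
      exact Nat.le_of_mul_le_mul_right h5 (by norm_num)
    calc 2 * (l + 1) ^ 18 ≤ 2 * (2 * l ^ 18) := Nat.mul_le_mul_left _ h4
      _ ≤ 2 * 2 ^ l := Nat.mul_le_mul_left _ ih
      _ = 2 ^ (l + 1) := by rw [pow_succ]; ring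

end Pool.Agent.W2helper58
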